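import Pool.Agent.helper60.MW.SpecB

set_option autoImplicit false

/-!
Moser's worm problem, row LTD: convergence of the densities
-/

namespace Pool.Agent.MW

theorem LTD (hULM : ULM_stmt) (hDTR : DTR_stmt) : LTD_stmt := by
  intro X hX c L x y
  exact hULM _ fun n => ⟨(hDTR (X n) (hX n)).nonneg L _ _, (hDTR (X n) (hX n)).le_one L _ _⟩

end Pool.Agent.MW
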