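import Pool.Agent.helper60.MW.SpecB

set_option autoImplicit false

/-!
Moser's worm problem, row ULM: bounded sequences converge along the ultrafilter
-/

namespace Pool.Agent.MW

theorem ULM : ULM_stmt := by
  intro h hh
  have h1 : ((ul.map h : Ultrafilter ℝ) : Filter ℝ) ≤ Filter.principal (Set.Icc 0 1) := by
    rw [Filter.le_principal_iff]
    have h3 : h ⁻¹' (Set.Icc 0 1) = Set.univ := by
      ext n
      simp only [Set.mem_preimage, Set.mem_Icc, Set.mem_univ, iff_true]
      exact hh n
    show h ⁻¹' (Set.Icc 0 1) ∈ (ul : Filter ℕ)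
    rw [h3]
    exact Filter.univ_mem
  obtain ⟨x, -, hx⟩ := isCompact_Icc.ultrafilter_le_nhds (ul.map h) h1
  have h2 : Filter.Tendsto h (ul : Filter ℕ) (nhds x) := hx
  exact tendsto_nhds_limUnder ⟨x, h2⟩

end Pool.Agent.MW
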