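import Pool.Agent.helper60.MW.SpecB

set_option autoImplicit false

/-!
Moser's worm problem, row ZME: area of the minimal set
-/

namespace Pool.Agent.MW

open MeasureTheory Set Pool.Agent.helper17.Worm

lemma ZME_kap : Filter.Tendsto kap Filter.atTop (nhds 0) := by
  have h1 : Filter.Tendsto (fun j : ℕ => (1 / 2 : ℝ) ^ j) Filter.atTop (nhds 0) :=
    tendsto_pow_atTop_nhds_zero_of_lt_one (by norm_num) (by norm_num)
  have h2 : Filter.Tendsto (fun j : ℕ => (1 / 2 : ℝ) ^ (j + 3)) Filter.atTop (nhds 0) :=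
    (Filter.tendsto_add_atTop_iff_nat 3).2 h1
  have h3 : kap = fun j : ℕ => (1 / 2 : ℝ) ^ (j + 3) := by
    funext j
    unfold kap
    rw [div_pow, one_pow]
  rw [h3]
  exact h2

theorem ZME : ZME_stmt := by
  intro ι D M W K L hS hM hB
  have hI : {i | mass (D i) 0 ≠ 0}.Countable := Summable.countable_support_ennreal hS
  obtain ⟨A, hA⟩ : ∃ A : ℕ → Set ℂ, A = fun m => ⋃ i ∈ {i | mass (D i) 0 ≠ 0},
      ⋂ j ∈ {j : ℕ | m ≤ j}, HH (D i (L j)) (L j) (kap j) (W j) (K j) := ⟨_, rfl⟩
  have hZ : ZZ D W K L = ⋃ m, A m := by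
    rw [hA]
    rfl
  have hmono : Monotone A := by
    rw [hA]
    intro m m' hm
    refine iUnion₂_mono fun i _ => ?_
    refine biInter_subset_biInter_left ?_
    intro j hj
    exact le_trans hm hj
  have hAm : ∀ m, volume (A m) ≤ ENNReal.ofReal M := by
    intro m
    have h1 : ∀ j, m ≤ j → volume (A m) ≤
        ENNReal.ofReal ((1 + 2 * kap j) ^ 2 / (1 - 4 * kap j) * M + kap j) := by
      intro j hj
      refine le_trans ?_ (hB j)
      have h2 : A m ⊆ ⋃ i ∈ {i | mass (D i) 0 ≠ 0}, HH (D i (L j)) (L j) (kap j) (W j) (K j) := by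
        rw [hA]
        refine iUnion₂_mono fun i _ => ?_
        exact biInter_subset_of_mem hj
      refine (measure_mono h2).trans ((measure_biUnion_le volume hI _).trans ?_)
      exact ENNReal.tsum_comp_le_tsum_of_injective Subtype.val_injective
        (fun i => volume (HH (D i (L j)) (L j) (kap j) (W j) (K j)))
    have h3 : Filter.Tendsto (fun j => ENNReal.ofReal ((1 + 2 * kap j) ^ 2 / (1 - 4 * kap j) * M + kap j))
        Filter.atTop (nhds (ENNReal.ofReal M)) := by
      refine ENNReal.tendsto_ofReal ?_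
      have h4 : Filter.Tendsto (fun j => (1 + 2 * kap j) ^ 2 / (1 - 4 * kap j) * M + kap j)
          Filter.atTop (nhds ((1 + 2 * 0) ^ 2 / (1 - 4 * 0) * M + 0)) := by
        refine Filter.Tendsto.add (Filter.Tendsto.mul_const _ (Filter.Tendsto.div ?_ ?_ (by norm_num))) ZME_kap
        · exact (tendsto_const_nhds.add (ZME_kap.const_mul 2)).pow 2
        · exact tendsto_const_nhds.sub (ZME_kap.const_mul 4)
      simpa using h4
    exact ge_of_tendsto h3 (Filter.eventually_atTop.mpr ⟨m, h1⟩)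
  rw [hZ, hmono.measure_iUnion]
  exact iSup_le hAm

end Pool.Agent.MW
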